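import Pool.Agent.H332R2.EX.SopDef

/-! Task 10: the trace of `S^J` as an average over the block words. -/

namespace RC852
open RC14 Finset
open scoped InnerProductSpace

namespace OPST

/-- powers of an average of operators -/
theorem sum_pow_op {G : Type*} [Group G] {V : Type*} [NormedAddCommGroup V]
    [InnerProductSpace ℂ V] (ρ : G →* (V ≃ₗᵢ[ℂ] V)) {A : Type*} [Fintype A] (f : A → G) (c : ℂ)
    (N : ℕ) : (c • ∑ a, op ρ (f a)) ^ N =
      c ^ N • ∑ w : Fin N → A, op ρ (List.ofFn fun t => f (w t)).prod := by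
  induction N with
  | zero => simp [op_one]
  | succ N ih =>
    rw [pow_succ', ih, smul_mul_smul_comm, ← pow_succ']
    congr 1
    rw [Finset.sum_mul_sum, ← Fintype.sum_prod_type',
      ← (Fin.consEquiv (fun _ : Fin (N + 1) => A)).sum_comp]
    refine Finset.sum_congr rfl fun p _ => ?_
    rw [← op_mul]
    simp [Fin.consEquiv, List.ofFn_succ]

theorem norm_chr_le {G : Type*} [Group G] {V : Type*} [NormedAddCommGroup V]
    [InnerProductSpace ℂ V] [FiniteDimensional ℂ V] (ρ : G →* (V ≃ₗᵢ[ℂ] V)) (g : G) :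
    ‖chr ρ g‖ ≤ Module.finrank ℂ V := by
  unfold chr
  rw [LinearMap.trace_eq_sum_inner (op ρ g) (stdOrthonormalBasis ℂ V)]
  refine (norm_sum_le _ _).trans ?_
  have : ∀ i, ‖⟪stdOrthonormalBasis ℂ V i, op ρ g (stdOrthonormalBasis ℂ V i)⟫_ℂ‖ ≤ 1 := by
    intro i
    refine (norm_inner_le_norm _ _).trans ?_
    rw [op_apply, (ρ g).norm_map]
    simp
  refine (Finset.sum_le_sum fun i _ => this i).trans ?_
  simp

theorem trace_pow_comm {V : Type*} [NormedAddCommGroup V]
    [InnerProductSpace ℂ V] (a b : Module.End ℂ V) (J : ℕ) :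
    LinearMap.trace ℂ V ((a * b) ^ J) = LinearMap.trace ℂ V ((b * a) ^ J) := by
  rcases J with _ | J
  · simp
  · rw [pow_succ, ← mul_assoc, mul_pow_mul, LinearMap.trace_mul_comm, ← mul_assoc, ← pow_succ']

end OPST
open OPST

variable {G : Type*} [Group G] [Fintype G]
variable {V : Type*} [NormedAddCommGroup V] [InnerProductSpace ℂ V] [FiniteDimensional ℂ V]

/-- the trace of `S^J` as an average over the block words -/
theorem Sop_trace {q : ℕ} (hq : 1 ≤ q) (ρ : G →* (V ≃ₗᵢ[ℂ] V)) (x b : Fin q → G) (m J : ℕ)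
    (P : G → Prop) (β : ℝ) (hβ : 0 ≤ β)
    (hP : ∀ h, ¬ P h → ‖chr ρ h‖ ≤ β * Module.finrank ℂ V) :
    rtr (Sop ρ x b m ^ J) ≤
      (β + (Nat.card {w : Fin J → (Fin (2 * m) → Fin q × Bool) × (Fin q × Bool) //
          P (bwd (wrd x) b w)} : ℝ) /
        (Fintype.card ((Fin (2 * m) → Fin q × Bool) × (Fin q × Bool)) : ℝ) ^ J) *
        Module.finrank ℂ V := by
  classical
  set d : ℝ := (Module.finrank ℂ V : ℝ) with hd
  have hd0 : 0 ≤ d := by positivity
  have hq0 : (0 : ℝ) < q := by exact_mod_cast hq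
  set Cn : ℝ := (Fintype.card ((Fin (2 * m) → Fin q × Bool) × (Fin q × Bool)) : ℝ) with hCn
  have hCn1 : Cn = (2 * q : ℝ) ^ (2 * m + 1) := by
    rw [hCn]
    simp only [Fintype.card_prod, Fintype.card_fun, Fintype.card_fin, Fintype.card_bool]
    push_cast
    ring
  have hCn0 : 0 < Cn := by rw [hCn1]; positivity
  -- the block operator
  have hblock : Tq ρ b * Tq ρ x ^ (2 * m) = (1 / Cn : ℂ) •
      ∑ c : (Fin (2 * m) → Fin q × Bool) × (Fin q × Bool), op ρ (blk (wrd x) b c) := by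
    unfold Tq
    rw [sum_pow_op, smul_mul_smul_comm]
    have h1 : (1 / (2 * q) : ℂ) * (1 / (2 * q) : ℂ) ^ (2 * m) = (1 / Cn : ℂ) := by
      rw [hCn1, ← pow_succ', div_pow, one_pow]
      push_cast
      rfl
    rw [h1]
    congr 1
    rw [Finset.sum_mul_sum, Finset.sum_comm, ← Fintype.sum_prod_type']
    refine Finset.sum_congr rfl fun c _ => ?_
    rw [← op_mul]
    rfl
  have htr : rtr (Sop ρ x b m ^ J) = (1 / Cn) ^ J *
      ∑ w : Fin J → (Fin (2 * m) → Fin q × Bool) × (Fin q × Bool),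
        (chr ρ (bwd (wrd x) b w)).re := by
    unfold rtr Sop
    rw [mul_assoc, trace_pow_comm, mul_assoc, ← pow_add, ← two_mul, hblock, sum_pow_op, map_smul,
      map_sum]
    have h1 : (1 / Cn : ℂ) ^ J = (((1 / Cn) ^ J : ℝ) : ℂ) := by push_cast; rfl
    rw [h1, smul_eq_mul, Complex.re_ofReal_mul, Complex.re_sum]
    rfl
  rw [htr]
  have hterm : ∀ w : Fin J → (Fin (2 * m) → Fin q × Bool) × (Fin q × Bool),
      (chr ρ (bwd (wrd x) b w)).re ≤ β * d + (if P (bwd (wrd x) b w) then d else 0) := by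
    intro w
    refine (Complex.re_le_norm _).trans ?_
    split_ifs with h
    · have := norm_chr_le ρ (bwd (wrd x) b w)
      nlinarith [mul_nonneg hβ hd0]
    · rw [add_zero]
      exact hP _ h
  have hsum := Finset.sum_le_sum fun w (_ : w ∈ (Finset.univ :
    Finset (Fin J → (Fin (2 * m) → Fin q × Bool) × (Fin q × Bool)))) => hterm w
  rw [Finset.sum_add_distrib, Finset.sum_const, Finset.card_univ, ← Finset.sum_filter,
    Finset.sum_const, nsmul_eq_mul, nsmul_eq_mul, Fintype.card_fun, Fintype.card_fin] at hsum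
  have hcard : (Nat.card {w : Fin J → (Fin (2 * m) → Fin q × Bool) × (Fin q × Bool) //
          P (bwd (wrd x) b w)} : ℝ) = (#{w : Fin J → (Fin (2 * m) → Fin q × Bool) × (Fin q × Bool) |
          P (bwd (wrd x) b w)} : ℝ) := by
    rw [Nat.card_eq_fintype_card, Fintype.card_subtype]
  rw [hcard]
  push_cast at hsum
  rw [← hCn] at hsum
  have h2 : (1 / Cn) ^ J * Cn ^ J = 1 := by
    rw [← mul_pow, one_div_mul_cancel hCn0.ne', one_pow]
  calc (1 / Cn) ^ J * _ ≤ (1 / Cn) ^ J * (Cn ^ J * (β * d) + _ * d) :=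
        mul_le_mul_of_nonneg_left hsum (by positivity)
    _ = ((1 / Cn) ^ J * Cn ^ J) * (β * d) + (1 / Cn) ^ J *
        ((#{w : Fin J → (Fin (2 * m) → Fin q × Bool) × (Fin q × Bool) |
          P (bwd (wrd x) b w)} : ℝ) * d) := by ring
    _ = _ := by
      rw [h2, one_div, inv_pow]
      field_simp

end RC852
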