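import Pool.Agent.H852R2.EX.Defs

namespace RC852
open RC14 Finset

/-- locality of the walk: changing `b_i` outside the queried points changes nothing -/
theorem LOCAL {n q : ℕ} {K : Type*} (g : K → Equiv.Perm (Fin n))
    (b b' : Fin q → Equiv.Perm (Fin n)) (u : List (K × (Fin q × Bool))) (p : Fin n)
    (h : ∀ e ∈ edg g b u p, b' e.1 e.2 = b e.1 e.2) :
    posn g b' u p = posn g b u p ∧ edg g b' u p = edg g b u p := by
  induction u with
  | nil => exact ⟨rfl, rfl⟩
  | cons c u ih =>
    have h' : ∀ e ∈ edg g b u p, b' e.1 e.2 = b e.1 e.2 := fun e he => h e (by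
      rw [edg]; exact List.mem_cons_of_mem _ he)
    obtain ⟨h1, h2⟩ := ih h'
    have h3 := h (eid g b c (posn g b u p)) (by rw [edg]; exact List.mem_cons_self)
    obtain ⟨k, i, s⟩ := c
    have hpos : ∀ b : Fin q → Equiv.Perm (Fin n), posn g b ((k, (i, s)) :: u) p =
        blk g b (k, (i, s)) (posn g b u p) := by
      intro b
      simp [posn]
    cases s
    · -- inverse letter
      simp only [eid, Bool.false_eq_true, if_false] at h3
      have h4 : (b' i)⁻¹ (g k (posn g b u p)) = (b i)⁻¹ (g k (posn g b u p)) := by
        have h5 : b' i ((b i)⁻¹ (g k (posn g b u p))) = g k (posn g b u p) := by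
          rw [h3]; simp
        rw [Equiv.Perm.inv_eq_iff_eq]
        exact h5.symm
      refine ⟨?_, ?_⟩
      · rw [hpos, hpos, h1]
        simp only [blk, sl, Bool.false_eq_true, if_false, Equiv.Perm.mul_apply]
        exact h4
      · rw [edg, edg, h2, h1]
        simp only [eid, Bool.false_eq_true, if_false, h4]
    · simp only [eid, if_true] at h3
      refine ⟨?_, ?_⟩
      · rw [hpos, hpos, h1]
        simp only [blk, sl, if_true, Equiv.Perm.mul_apply]
        exact h3
      · rw [edg, edg, h2, h1]
        simp only [eid, if_true]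

/-- `#unique ≥ 2 #distinct - length` -/
theorem UNIQ {α : Type*} [DecidableEq α] (e : List α) :
    2 * e.toFinset.card ≤ e.length + #{t : Fin e.length | e.count (e.get t) = 1} := by
  have h1 : ∑ a ∈ e.toFinset, e.count a = e.length := by
    exact List.sum_toFinset_count_eq_length e
  have h2 : ∑ a ∈ e.toFinset, 2 ≤ ∑ a ∈ e.toFinset, (e.count a + if e.count a = 1 then 1 else 0) := by
    refine Finset.sum_le_sum fun a ha => ?_
    have h3 : 0 < e.count a := List.count_pos_iff.mpr (by simpa using ha)
    split_ifs with h
    · omega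
    · omega
  rw [Finset.sum_const, Finset.sum_add_distrib, h1, ← Finset.card_filter] at h2
  have h4 : #{a ∈ e.toFinset | e.count a = 1} ≤ #{t : Fin e.length | e.count (e.get t) = 1} := by
    have : (e.toFinset.filter (fun a => e.count a = 1)) ⊆
        (Finset.univ.filter (fun t : Fin e.length => e.count (e.get t) = 1)).image e.get := by
      intro a ha
      rw [Finset.mem_filter, List.mem_toFinset] at ha
      obtain ⟨t, ht⟩ := List.get_of_mem ha.1
      rw [Finset.mem_image]
      exact ⟨t, Finset.mem_filter.mpr ⟨Finset.mem_univ _, by rw [ht]; exact ha.2⟩, ht⟩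
    exact (Finset.card_le_card this).trans Finset.card_image_le
  rw [smul_eq_mul] at h2
  omega

end RC852
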