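import Pool.Agent.H852R2.EX.S.OPS
import Pool.Agent.H911R2.RC.AMP2

/-! Task 11: amplification starting from the operator `S`. -/

namespace RC852
open RC14 Finset
open scoped InnerProductSpace

variable {G : Type*} [Group G] [Fintype G]
variable {V : Type*} [NormedAddCommGroup V] [InnerProductSpace ℂ V] [FiniteDimensional ℂ V]

namespace AMPQaux

open AMP2 in
theorem ampq (ρ : G →* (V ≃ₗᵢ[ℂ] V)) (hirr : Irr ρ ⊤) (q m : ℕ) (x b : Fin q → G) (L : ℕ)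
    (η : ℝ) (hη : rtr (Sop ρ x b m ^ (2 * L)) ≤ η * Module.finrank ℂ V)
    (R : ℕ) (hq : 8 ≤ q) (Λ : ℝ) (hΛ : 70 ≤ Λ)
    (hηΛ : (8 / 7 : ℝ) ^ (2 * L) * η ≤ Real.exp (-Λ))
    (hd : (Module.finrank ℂ V : ℝ) < Real.exp (Λ * (q / 8 : ℝ) ^ R)) :
    (Nat.card {z : Fin R → Fin q → G // ¬ ∀ v : V,
        (1 / 4 : ℝ) ^ R * ‖v‖ ^ 2 ≤
          48 * (m : ℝ) ^ 2 / q * En ρ x v + 8 / (q : ℝ) * En ρ b v +
            1 / (q : ℝ) * ∑ r, En ρ (z r) v} : ℝ) ≤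
      R * Real.exp (-(Λ * q / 8)) * (Fintype.card G : ℝ) ^ (R * q) := by
  classical
  have hq1 : 1 ≤ q := by omega
  obtain ⟨E, hE, htr, hgap⟩ := SPEC (Sop ρ x b m) (Sop_symm ρ x b m)
    (fun v => Sop_le hq1 ρ x b m v) (7 / 8) (by norm_num) (by norm_num)
  have hgap' : ∀ v, ‖v - E v‖ ^ 2 ≤ 48 * (m : ℝ) ^ 2 / q * En ρ x v + 8 / (q : ℝ) * En ρ b v := by
    intro v
    have h1 := hgap v
    have h2 := Sop_energy hq1 ρ x b m v
    have h3 : 48 * (m : ℝ) ^ 2 / q * En ρ x v + 8 / (q : ℝ) * En ρ b v =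
        8 * (6 * (m : ℝ) ^ 2 / q * En ρ x v + 1 / (q : ℝ) * En ρ b v) := by ring
    rw [h3]
    linarith
  have hτ : rtr E ≤ Real.exp (-Λ) * Module.finrank ℂ V := by
    have h1 := (htr L).trans hη
    have h2 : (8 / 7 : ℝ) ^ (2 * L) * ((7 / 8 : ℝ) ^ (2 * L) * rtr E) = rtr E := by
      rw [← mul_assoc, ← mul_pow]
      norm_num
    calc rtr E = (8 / 7 : ℝ) ^ (2 * L) * ((7 / 8 : ℝ) ^ (2 * L) * rtr E) := h2.symm
      _ ≤ (8 / 7 : ℝ) ^ (2 * L) * (η * Module.finrank ℂ V) := by gcongr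
      _ = ((8 / 7 : ℝ) ^ (2 * L) * η) * Module.finrank ℂ V := by ring
      _ ≤ _ := by gcongr
  refine le_trans ?_ (ITER ρ hirr q hq R E hE Λ hΛ hτ hd)
  rw [card_eq_sum, card_eq_sum]
  exact Finset.sum_le_sum fun z _ => ind_mono fun h3 h4 => h3 fun v =>
    (h4 v).trans (by linarith [hgap' v])

end AMPQaux

/-- amplification starting from `S` (cf. `AMP2SUB`) -/
theorem AMPQ (ρ : G →* (V ≃ₗᵢ[ℂ] V)) (W : Submodule ℂ V) (hW : Irr ρ W) (q m : ℕ)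
    (x b : Fin q → G) (L : ℕ) (η : ℝ)
    (hη : rtr (Sop (res ρ W hW.2.1) x b m ^ (2 * L)) ≤ η * Module.finrank ℂ W)
    (R : ℕ) (hq : 8 ≤ q) (Λ : ℝ) (hΛ : 70 ≤ Λ)
    (hηΛ : (8 / 7 : ℝ) ^ (2 * L) * η ≤ Real.exp (-Λ))
    (hd : (Module.finrank ℂ W : ℝ) < Real.exp (Λ * (q / 8 : ℝ) ^ R)) :
    (Nat.card {z : Fin R → Fin q → G // ¬ ∀ v ∈ W,
        (1 / 4 : ℝ) ^ R * ‖v‖ ^ 2 ≤
          48 * (m : ℝ) ^ 2 / q * En ρ x v + 8 / (q : ℝ) * En ρ b v +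
            1 / (q : ℝ) * ∑ r, En ρ (z r) v} : ℝ) ≤
      R * Real.exp (-(Λ * q / 8)) * (Fintype.card G : ℝ) ^ (R * q) := by
  have h := AMPQaux.ampq (res ρ W hW.2.1) (AMP1.irr_res ρ W hW) q m x b L η hη R hq Λ hΛ hηΛ hd
  have hE : ∀ {ι : Type} [Fintype ι] (y : ι → G) (w : W),
      En (res ρ W hW.2.1) y w = En ρ y (w : V) := by
    intro ι _ y w
    unfold En
    apply Finset.sum_congr rfl
    intro i _
    rw [Submodule.coe_norm, Submodule.coe_sub, res_apply]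
  have hiff : ∀ z : Fin R → Fin q → G, (¬ ∀ v ∈ W,
        (1 / 4 : ℝ) ^ R * ‖v‖ ^ 2 ≤
          48 * (m : ℝ) ^ 2 / q * En ρ x v + 8 / (q : ℝ) * En ρ b v +
            1 / (q : ℝ) * ∑ r, En ρ (z r) v) ↔
      (¬ ∀ v : W, (1 / 4 : ℝ) ^ R * ‖v‖ ^ 2 ≤
        48 * (m : ℝ) ^ 2 / q * En (res ρ W hW.2.1) x v + 8 / (q : ℝ) *
          En (res ρ W hW.2.1) b v + 1 / (q : ℝ) * ∑ r, En (res ρ W hW.2.1) (z r) v) := by
    intro z
    apply not_congr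
    constructor
    · intro h1 v
      have h2 := h1 v v.2
      rw [hE, hE, Submodule.coe_norm, Finset.sum_congr rfl fun r _ => hE (z r) v]
      exact h2
    · intro h1 v hv
      have := h1 ⟨v, hv⟩
      rw [hE, hE, Submodule.coe_norm, Finset.sum_congr rfl fun r _ => hE (z r) ⟨v, hv⟩] at this
      exact this
  have hc := Nat.card_congr (Equiv.subtypeEquivRight hiff)
  rw [hc]
  exact h

end RC852
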