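import Pool.Agent.H852R2.EX.Defs

/-! Task 07: singleton letters. -/

namespace RC852
open RC14 Finset

namespace SINGaux

/-- the value of a list of signed letters -/
def lw {G : Type*} [Group G] {q : ℕ} (x : Fin q → G) (l : List (Fin q × Bool)) : G :=
  (l.map (sl x)).prod

theorem wrd_eq {G : Type*} [Group G] {q m : ℕ} (x : Fin q → G) (v : Fin m → Fin q × Bool) :
    wrd x v = lw x (List.ofFn v) := by
  unfold wrd lw
  rw [List.map_ofFn]
  rfl

theorem lw_append {G : Type*} [Group G] {q : ℕ} (x : Fin q → G) (l l' : List (Fin q × Bool)) :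
    lw x (l ++ l') = lw x l * lw x l' := by simp [lw]

theorem lw_update {G : Type*} [Group G] {q : ℕ} (x : Fin q → G) (i : Fin q) (g : G)
    (l : List (Fin q × Bool)) (h : ∀ a ∈ l, a.1 ≠ i) : lw (Function.update x i g) l = lw x l := by
  unfold lw
  congr 1
  apply List.map_congr_left
  intro a ha
  unfold sl
  rw [Function.update_of_ne (h a ha)]

theorem split_list {q : ℕ} (i : Fin q) (l : List (Fin q × Bool))
    (h : l.countP (fun a => decide (a.1 = i)) = 1) :
    ∃ (l1 l2 : List (Fin q × Bool)) (s : Bool), l = l1 ++ (i, s) :: l2 ∧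
      (∀ a ∈ l1, a.1 ≠ i) ∧ ∀ a ∈ l2, a.1 ≠ i := by
  induction l with
  | nil => simp at h
  | cons a l ih =>
    by_cases ha : a.1 = i
    · rw [List.countP_cons_of_pos (by simpa using ha)] at h
      refine ⟨[], l, a.2, ?_, by simp, ?_⟩
      · rw [List.nil_append, ← ha]
      · have h0 : l.countP (fun a => decide (a.1 = i)) = 0 := by omega
        intro b hb hbi
        rw [List.countP_eq_zero] at h0
        exact h0 b hb (by simpa using hbi)
    · rw [List.countP_cons_of_neg (by simpa using ha)] at h
      obtain ⟨l1, l2, s, h1, h2, h3⟩ := ih h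
      refine ⟨a :: l1, l2, s, by rw [h1]; rfl, ?_, h3⟩
      intro b hb
      rcases List.mem_cons.mp hb with rfl | hb
      · exact ha
      · exact h2 b hb

theorem not_mem_of_count {q : ℕ} (i : Fin q) (l : List (Fin q × Bool))
    (h : l.countP (fun a => decide (a.1 = i)) = 0) : ∀ a ∈ l, a.1 ≠ i := by
  intro b hb hbi
  rw [List.countP_eq_zero] at h
  exact h b hb (by simpa using hbi)

/-- the number of even permutations with `g a = c` -/
theorem card_move (n : ℕ) (hn : 3 ≤ n) (a c : Fin n) :
    #{g : Alt n | (g : Equiv.Perm (Fin n)) a = c} * n = Fintype.card (Alt n) := by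
  have htr : MulAction.IsPretransitive (Alt n) (Fin n) :=
    alternatingGroup.isPretransitive_of_three_le_card (Fin n) (by simpa using hn)
  have h1 : ∀ c' : Fin n, #{g : Alt n | (g : Equiv.Perm (Fin n)) a = c'} =
      #{g : Alt n | (g : Equiv.Perm (Fin n)) a = c} := by
    intro c'
    obtain ⟨h, hh⟩ := htr.exists_smul_eq c' c
    have hh' : (h : Equiv.Perm (Fin n)) c' = c := hh
    refine Finset.card_equiv (Equiv.mulLeft h) ?_
    intro g
    simp only [Finset.mem_filter, Finset.mem_univ, true_and, Equiv.coe_mulLeft]
    rw [Subgroup.coe_mul, Equiv.Perm.mul_apply, ← hh']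
    exact (h : Equiv.Perm (Fin n)).injective.eq_iff.symm
  have h2 : ∑ c' : Fin n, #{g : Alt n | (g : Equiv.Perm (Fin n)) a = c'} = Fintype.card (Alt n) := by
    rw [← Finset.card_univ]
    exact (Finset.card_eq_sum_card_fiberwise (f := fun g : Alt n => (g : Equiv.Perm (Fin n)) a)
      (s := Finset.univ) (t := Finset.univ) (by intro x _; simp)).symm
  rw [← h2, Finset.sum_congr rfl fun c' _ => h1 c', Finset.sum_const, Finset.card_univ,
    Fintype.card_fin, smul_eq_mul, mul_comm]

theorem card_move_inv (n : ℕ) (hn : 3 ≤ n) (a c : Fin n) :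
    #{g : Alt n | ((g⁻¹ : Alt n) : Equiv.Perm (Fin n)) a = c} * n = Fintype.card (Alt n) := by
  rw [← card_move n hn a c]
  congr 1
  refine Finset.card_equiv (Equiv.inv (Alt n)) ?_
  intro g
  simp

/-- the fibre count -/
theorem fibre (n q : ℕ) (hn : 3 ≤ n) (l l' : List (Fin q × Bool)) (i : Fin q)
    (hl : l.countP (fun a => decide (a.1 = i)) = 1)
    (hl' : l'.countP (fun a => decide (a.1 = i)) = 0) (y : Fin n) (x : Fin q → Alt n) :
    #{g : Alt n | ((lw (Function.update x i g) l : Alt n) : Equiv.Perm (Fin n)) y =
      ((lw (Function.update x i g) l' : Alt n) : Equiv.Perm (Fin n)) y} * n =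
      Fintype.card (Alt n) := by
  obtain ⟨l1, l2, s, h1, h2, h3⟩ := split_list i l hl
  have h4 : ∀ g : Alt n, lw (Function.update x i g) l =
      lw x l1 * (sl (Function.update x i g) (i, s) * lw x l2) := by
    intro g
    rw [h1, lw_append, lw_update _ _ _ _ h2]
    have : lw (Function.update x i g) ((i, s) :: l2) =
        sl (Function.update x i g) (i, s) * lw (Function.update x i g) l2 := by simp [lw]
    rw [this, lw_update _ _ _ _ h3]
  have h5 : ∀ g : Alt n, lw (Function.update x i g) l' = lw x l' := fun g =>
    lw_update _ _ _ _ (not_mem_of_count i l' hl')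
  have h6 : ∀ g : Alt n, (((lw (Function.update x i g) l : Alt n) : Equiv.Perm (Fin n)) y =
      ((lw (Function.update x i g) l' : Alt n) : Equiv.Perm (Fin n)) y) ↔
      ((sl (Function.update x i g) (i, s) : Alt n) : Equiv.Perm (Fin n))
        (((lw x l2 : Alt n) : Equiv.Perm (Fin n)) y) =
        (((lw x l1)⁻¹ * lw x l' : Alt n) : Equiv.Perm (Fin n)) y := by
    intro g
    rw [h4, h5]
    simp only [Subgroup.coe_mul, Equiv.Perm.mul_apply, Subgroup.coe_inv]
    rw [Equiv.Perm.eq_inv_iff_eq]
  simp only [h6]
  cases s
  · have h7 : ∀ g : Alt n, sl (Function.update x i g) (i, false) = g⁻¹ := by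
      intro g
      simp [sl]
    simp only [h7]
    exact card_move_inv n hn _ _
  · have h7 : ∀ g : Alt n, sl (Function.update x i g) (i, true) = g := by
      intro g
      simp [sl]
    simp only [h7]
    exact card_move n hn _ _

/-- resampling one coordinate -/
theorem resample {A : Type*} [Fintype A] [DecidableEq A] {q : ℕ} (i : Fin q)
    (S : (Fin q → A) → Prop) [DecidablePred S] (n : ℕ)
    (h : ∀ x : Fin q → A, #{g : A | S (Function.update x i g)} * n = Fintype.card A)
    (hA : 0 < Fintype.card A) :
    #{x : Fin q → A | S x} * n = Fintype.card A ^ q := by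
  have h1 : ∑ x : Fin q → A, #{g : A | S (Function.update x i g)} =
      Fintype.card A * #{x : Fin q → A | S x} := by
    have e1 : ∑ x : Fin q → A, #{g : A | S (Function.update x i g)} =
        #{p : (Fin q → A) × A | S (Function.update p.1 i p.2)} := by
      rw [Finset.card_filter, Fintype.sum_prod_type]
      refine Finset.sum_congr rfl fun x _ => ?_
      rw [Finset.card_filter]
    have e2 : Fintype.card A * #{x : Fin q → A | S x} = #{p : (Fin q → A) × A | S p.1} := by
      have e3 : #{p : (Fin q → A) × A | S p.1} = ∑ x : Fin q → A, ∑ _g : A, if S x then 1 else 0 := by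
        rw [Finset.card_filter, Fintype.sum_prod_type]
      rw [e3]
      simp only [Finset.sum_const, Finset.card_univ, smul_eq_mul]
      rw [← Finset.mul_sum, Finset.card_filter]
    rw [e1, e2]
    let φ : (Fin q → A) × A ≃ (Fin q → A) × A :=
      { toFun := fun p => (Function.update p.1 i p.2, p.1 i)
        invFun := fun p => (Function.update p.1 i p.2, p.1 i)
        left_inv := fun p => by simp
        right_inv := fun p => by simp }
    refine Finset.card_equiv φ ?_
    intro p
    simp [φ]
  have h2 : ∑ x : Fin q → A, #{g : A | S (Function.update x i g)} * n =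
      Fintype.card A ^ q * Fintype.card A := by
    rw [Finset.sum_congr rfl fun x _ => h x, Finset.sum_const, Finset.card_univ, smul_eq_mul,
      Fintype.card_fun, Fintype.card_fin]
  rw [← Finset.sum_mul, h1] at h2
  have h3 : Fintype.card A * (#{x : Fin q → A | S x} * n) = Fintype.card A * Fintype.card A ^ q := by
    rw [← mul_assoc, h2, mul_comm]
  exact Nat.eq_of_mul_eq_mul_left hA h3

theorem countP_ofFn {q m : ℕ} (i : Fin q) (u : Fin m → Fin q × Bool) :
    (List.ofFn u).countP (fun a => decide (a.1 = i)) = #{t | (u t).1 = i} := by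
  induction m with
  | zero => simp
  | succ m ih =>
    rw [List.ofFn_succ, List.countP_cons, ih, Finset.card_filter, Finset.card_filter,
      Fin.sum_univ_succ, add_comm]
    simp

end SINGaux
open SINGaux

/-- if some index occurs exactly once in `(u, v)` then `u y = v y` with probability `1/n` -/
theorem SING (n q m : ℕ) (hn : 3 ≤ n) (u v : Fin m → Fin q × Bool) (i : Fin q)
    (h : #{t | (u t).1 = i} + #{t | (v t).1 = i} = 1) (y : Fin n) :
    Nat.card {x : Fin q → Alt n // ((wrd x u : Alt n) : Equiv.Perm (Fin n)) y =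
      ((wrd x v : Alt n) : Equiv.Perm (Fin n)) y} * n = Fintype.card (Alt n) ^ q := by
  rw [← countP_ofFn, ← countP_ofFn] at h
  rw [Nat.card_eq_fintype_card, Fintype.card_subtype]
  refine resample i _ n (fun x => ?_) Fintype.card_pos
  simp only [wrd_eq]
  rcases Nat.lt_or_ge ((List.ofFn u).countP (fun a => decide (a.1 = i))) 1 with h0 | h0
  · have h1 : (List.ofFn u).countP (fun a => decide (a.1 = i)) = 0 := by omega
    have h2 : (List.ofFn v).countP (fun a => decide (a.1 = i)) = 1 := by omega
    have := fibre n q hn _ _ i h2 h1 y x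
    rw [← this]
    congr 2
    ext g
    simp only [Finset.mem_filter, Finset.mem_univ, true_and]
    exact eq_comm
  · have h1 : (List.ofFn u).countP (fun a => decide (a.1 = i)) = 1 := by omega
    have h2 : (List.ofFn v).countP (fun a => decide (a.1 = i)) = 0 := by omega
    exact fibre n q hn _ _ i h1 h2 y x

end RC852
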