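import Pool.Agent.H852R2.EX.Defs

/-! The operator `S = T_x^m T_b T_x^m` is defined in `Pool.Agent.H852R2.EX.Defs`. -/
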